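import Pool.Agent.Lib.MP_a247fa_nt.PeriodBound

set_option autoImplicit false

namespace Pool.Agent.Lib.MP_a247fa_nt.Shelf.PeriodwiseFinite

open Pool.Agent.Lib.MP_a247fa_nt

/-- For every period `p ≥ 1`, the positive attracting periodic points of `cf` of minimal period `p`
all lie in `(0, 3^p * 8^(2^p)]`, and there are only finitely many of them. -/
theorem result (p : ℕ) (hp : 0 < p) :
    (∀ x : ℝ, 0 < x → IsAttracting x → Function.minimalPeriod cf x = p →
      x ≤ 3 ^ p * 8 ^ (2 ^ p)) ∧
    {x : ℝ | 0 < x ∧ IsAttracting x ∧ Function.minimalPeriod cf x = p}.Finite := by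
  have key : ∀ x : ℝ, 0 < x → IsAttracting x → Function.minimalPeriod cf x = p →
      cf^[p] x = x ∧ |deriv (cf^[p]) x| < 1 := by
    intro x _ hatt hmin
    have h1 : Function.IsPeriodicPt cf (Function.minimalPeriod cf x) x :=
      Function.isPeriodicPt_minimalPeriod cf x
    have h2 := hatt.2
    rw [hmin] at h1 h2
    exact ⟨h1, h2⟩
  refine ⟨fun x hx hatt hmin => ?_, ?_⟩
  · obtain ⟨h1, h2⟩ := key x hx hatt hmin
    exact attracting_period_le hx hp h1 h2
  · apply (attracting_period_finite p hp).subset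
    rintro x ⟨hx, hatt, hmin⟩
    obtain ⟨h1, h2⟩ := key x hx hatt hmin
    exact ⟨hx, h1, h2⟩

end Pool.Agent.Lib.MP_a247fa_nt.Shelf.PeriodwiseFinite
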