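import Pool.Agent.Lib.MP_a247fa_nt.Accum

/-!
# Attracting cycles of the real Collatz extension that meet the shadowing region

`cf x = x + 1/4 - (2x+1)/4 * cos (pi x)` is the map of the problem, `T` the Collatz map, and
`IsAttracting x` says that `x` is a periodic point of `cf` whose multiplier is below `1` in
absolute value (`Pool/Agent/Lib/MP_a247fa_nt/Basic.lean`).

The shadowing region is the set of all `x` which, for some integer `m ≥ 1`, lie in
`[m, m + 4/(5(2m+1))]`, or in `[m - 3m/(10X²-4m²), m]` for some bound `X` of the whole Collatz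
trajectory of `m`.
-/

set_option autoImplicit false

namespace Pool.Agent.Lib.MP_a247fa_nt.Shelf.ShadowEquivalence

open Real Function Pool.Agent.Lib.MP_a247fa_nt

/-- The shadowing region. -/
def InShadow (x : ℝ) : Prop :=
  ∃ m : ℕ, 0 < m ∧
    (((m : ℝ) ≤ x ∧ x ≤ m + 4 / (5 * (2 * m + 1))) ∨
      ∃ X : ℝ, (∀ k : ℕ, ((T^[k] m : ℕ) : ℝ) ≤ X) ∧
        (m : ℝ) - 3 * m / (10 * X ^ 2 - 4 * (m : ℝ) ^ 2) ≤ x ∧ x ≤ m)

lemma trap_of_shadow {x : ℝ} (ha : IsAttracting x) (hs : InShadow x) :
    ∃ m : ℕ, 0 < m ∧ m ∈ periodicPts T ∧ x ∈ trapI m := by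
  obtain ⟨hq, -⟩ := ha
  have hper : cf^[minimalPeriod cf x] x = x := isPeriodicPt_minimalPeriod cf x
  obtain ⟨m, hm, h | ⟨X, hX, h1, h2⟩⟩ := hs
  · have hx : x ∈ trapI m := h
    exact ⟨m, hm, ⟨_, hq, periodic_of_trap hm hx hper⟩, hx⟩
  · have hx : x ∈ shadowI X m := by
      refine ⟨h1, ?_⟩
      have : 0 ≤ 4 / (5 * (2 * (m : ℝ) + 1)) := by positivity
      linarith
    obtain ⟨h3, h4⟩ := periodic_shadow hm hX hx hq hper
    exact ⟨m, hm, ⟨_, hq, h4⟩, h3⟩

/-- The positive integers `n` whose Collatz trajectory is periodic are only `1` and `2` if and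
only if `{1, 2}` and the second known cycle `{a, b}` are the only attracting cycles of `cf` that
meet the shadowing region. -/
theorem result :
    ∃ a b : ℝ, (1.192531907 < a ∧ a < 1.192531908) ∧ (2.138656335 < b ∧ b < 2.138656336) ∧
      cf a = b ∧ cf b = a ∧
      ((∀ n : ℕ, 0 < n → n ∈ periodicPts T → n = 1 ∨ n = 2) ↔
        {x : ℝ | IsAttracting x ∧ InShadow x} = {1, 2, a, b}) := by
  refine ⟨aPt, bPt, ⟨aPt_gt_digits, aPt_lt_digits⟩, ⟨bPt_gt_digits, bPt_lt_digits⟩, rfl, cf_bPt,
    ?_⟩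
  have hab : IsAttracting bPt := isAttracting_cf isAttracting_aPt
  have h2 : IsAttracting 2 := by
    have := isAttracting_cf isAttracting_one
    rwa [cf_one] at this
  have hsub : ({1, 2, aPt, bPt} : Set ℝ) ⊆ {x : ℝ | IsAttracting x ∧ InShadow x} := by
    have key : ∀ {x : ℝ} {m : ℕ}, 0 < m → x ∈ trapI m → InShadow x :=
      fun hm hx => ⟨_, hm, Or.inl hx⟩
    rintro x (rfl | rfl | rfl | rfl)
    · exact ⟨isAttracting_one, key one_pos (by rw [trapI_one]; constructor <;> norm_num)⟩
    · exact ⟨h2, key two_pos (by rw [trapI_two]; constructor <;> norm_num)⟩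
    · exact ⟨isAttracting_aPt, key one_pos aPt_mem_trap⟩
    · exact ⟨hab, key two_pos (cf_mem_two aPt_mem_trap)⟩
  constructor
  · intro hT
    refine Set.Subset.antisymm ?_ hsub
    rintro x ⟨ha, hs⟩
    obtain ⟨m, hm, hper, hx⟩ := trap_of_shadow ha hs
    have h12 : x ∈ trapI 1 ∨ x ∈ trapI 2 := by
      rcases hT m hm hper with rfl | rfl
      · exact Or.inl hx
      · exact Or.inr hx
    exact attracting_one_two h12 ha
  · intro heq n hn hper
    obtain ⟨p, hp, hpn⟩ := hper
    have ha : IsAttracting (n : ℝ) := isAttracting_natCast hn hp hpn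
    have hs : InShadow (n : ℝ) := by
      refine ⟨n, hn, Or.inl ⟨le_rfl, ?_⟩⟩
      have : 0 ≤ 4 / (5 * (2 * (n : ℝ) + 1)) := by positivity
      linarith
    have hmem : (n : ℝ) ∈ ({1, 2, aPt, bPt} : Set ℝ) := by
      rw [← heq]; exact ⟨ha, hs⟩
    have hA1 := aPt_gt_digits
    have hA2 := aPt_lt_digits
    have hB1 := bPt_gt_digits
    have hB2 := bPt_lt_digits
    rcases hmem with h | h | h | h
    · left; exact_mod_cast h
    · right; exact_mod_cast h
    · exfalso
      rw [← h] at hA1 hA2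
      have h3 : (1 : ℝ) < n := by linarith
      have h4 : (n : ℝ) < 2 := by linarith
      have h3' : 1 < n := by exact_mod_cast h3
      have h4' : n < 2 := by exact_mod_cast h4
      omega
    · exfalso
      have h' : (n : ℝ) = bPt := h
      rw [← h'] at hB1 hB2
      have h3 : (2 : ℝ) < n := by linarith
      have h4 : (n : ℝ) < 3 := by linarith
      have h3' : 2 < n := by exact_mod_cast h3
      have h4' : n < 3 := by exact_mod_cast h4
      omega

end Pool.Agent.Lib.MP_a247fa_nt.Shelf.ShadowEquivalence
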